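import Mathlib
import Pool.Agent.Q54.ValDelta3

/-!
MP_943595_co, Q1: if `A = B + ω C` with `B`, `C` Hermitian and `C` of rank one over a valued field of
characteristic two with an involution, then the valuations of the principal minors of `A` form a
valuated Delta-matroid.
-/

namespace Pool.Agent.Results.MP_943595_co.HermitianRankOne

open Finset

/-- The indicator vector `e_S` of a subset `S` of `[n]`. -/
def indicatorVec {n : ℕ} (S : Finset (Fin n)) : Fin n → ℝ := fun i => if i ∈ S then 1 else 0

/-- The points `(e_S, p(S))` with `p(S)` finite, in `ℝ^n × ℝ`. -/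
def liftedPoints {n : ℕ} (p : Finset (Fin n) → WithTop ℝ) : Set ((Fin n → ℝ) × ℝ) :=
  {z | ∃ S : Finset (Fin n), z.1 = indicatorVec S ∧ p S = (z.2 : WithTop ℝ)}

/-- `F` is a lower face of the set `P` in `ℝ^n × ℝ`: a nonempty set of the form of all points of `P`
at which a linear functional with last coordinate `1` attains its minimum on `P`. -/
def IsLowerFace {n : ℕ} (P F : Set ((Fin n → ℝ) × ℝ)) : Prop :=
  F.Nonempty ∧ ∃ (c : Fin n → ℝ) (m : ℝ), (∀ z ∈ P, m ≤ (∑ i, c i * z.1 i) + z.2) ∧
    F = {z | z ∈ P ∧ (∑ i, c i * z.1 i) + z.2 = m}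

/-- `E` is a cell of the regular subdivision induced by `p`: the projection to `ℝ^n` of a lower face
of the convex hull of the lifted points. -/
def IsCell {n : ℕ} (p : Finset (Fin n) → WithTop ℝ) (E : Set (Fin n → ℝ)) : Prop :=
  ∃ F, IsLowerFace (convexHull ℝ (liftedPoints p)) F ∧ E = Prod.fst '' F

/-- An edge of the regular subdivision: a cell of affine dimension one. -/
def IsEdge {n : ℕ} (p : Finset (Fin n) → WithTop ℝ) (E : Set (Fin n → ℝ)) : Prop :=
  IsCell p E ∧ Module.finrank ℝ (vectorSpan ℝ E) = 1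

/-- The set `E` is parallel to the line spanned by `v`. -/
def IsParallelTo {n : ℕ} (E : Set (Fin n → ℝ)) (v : Fin n → ℝ) : Prop :=
  vectorSpan ℝ E = Submodule.span ℝ {v}

/-- Valuated Delta-matroids: `p` is finite somewhere and every edge of the induced regular
subdivision is parallel to some `e_i` or `e_i ± e_j` with `i ≠ j`. -/
def IsValuatedDeltaMatroid {n : ℕ} (p : Finset (Fin n) → WithTop ℝ) : Prop :=
  (∃ S, p S ≠ ⊤) ∧ ∀ E, IsEdge p E →
    (∃ i, IsParallelTo E (Pi.single i 1)) ∨
    (∃ i j, i ≠ j ∧ (IsParallelTo E (Pi.single i 1 + Pi.single j 1) ∨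
      IsParallelTo E (Pi.single i 1 - Pi.single j 1)))

/-- The principal minor of `A` on the rows and columns in `S` (the empty one is `1`). -/
def principalMinor {K : Type*} [Field K] {n : ℕ} (A : Matrix (Fin n) (Fin n) K)
    (S : Finset (Fin n)) : K :=
  (A.submatrix (fun i : S => (i : Fin n)) (fun i : S => (i : Fin n))).det

/-- `M` is Hermitian with respect to the automorphism `σ`. -/
def IsHermitianFor {K : Type*} [Field K] {n : ℕ} (σ : K ≃+* K) (M : Matrix (Fin n) (Fin n) K) :
    Prop := ∀ i j, M j i = σ (M i j)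

lemma face_eq {n : ℕ} (P0 : Set ((Fin n → ℝ) × ℝ)) (c : Fin n → ℝ) (m : ℝ)
    (hP : ∀ z ∈ convexHull ℝ P0, m ≤ (∑ i, c i * z.1 i) + z.2) :
    {z | z ∈ convexHull ℝ P0 ∧ (∑ i, c i * z.1 i) + z.2 = m} =
      convexHull ℝ {z | z ∈ P0 ∧ (∑ i, c i * z.1 i) + z.2 = m} := by
  set f : (Fin n → ℝ) × ℝ → ℝ := fun z => (∑ i, c i * z.1 i) + z.2 with hf
  have hlin : ∀ (a b : ℝ) (x y : (Fin n → ℝ) × ℝ), f (a • x + b • y) = a * f x + b * f y := by
    intro a b x y
    simp only [hf, Prod.fst_add, Prod.snd_add, Prod.smul_fst, Prod.smul_snd, Pi.add_apply,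
      Pi.smul_apply, smul_eq_mul]
    have : ∑ i, c i * (a * x.1 i + b * y.1 i) = a * ∑ i, c i * x.1 i + b * ∑ i, c i * y.1 i := by
      rw [Finset.mul_sum, Finset.mul_sum, ← Finset.sum_add_distrib]
      exact Finset.sum_congr rfl (fun i _ => by ring)
    rw [this]; ring
  have hP' : ∀ z ∈ convexHull ℝ P0, m ≤ f z := hP
  change {z | z ∈ convexHull ℝ P0 ∧ f z = m} = convexHull ℝ {z | z ∈ P0 ∧ f z = m}
  apply Set.Subset.antisymm
  · -- the union of the hull and the open half space is convex
    set Z := convexHull ℝ {z | z ∈ P0 ∧ f z = m} with hZ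
    have hZm : ∀ z ∈ Z, f z = m := by
      intro z hz
      have hconv : Convex ℝ {z | f z = m} := by
        intro x hx y hy a b ha hb hab
        have hx' : f x = m := hx
        have hy' : f y = m := hy
        change f (a • x + b • y) = m
        rw [hlin, hx', hy', ← add_mul, hab, one_mul]
      exact (convexHull_min (fun z hz => hz.2) hconv) hz
    have hconv : Convex ℝ (Z ∪ {z | m < f z}) := by
      intro x hx y hy a b ha hb hab
      rcases hx with hx | hx <;> rcases hy with hy | hy
      · exact Or.inl (convex_convexHull ℝ _ hx hy ha hb hab)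
      · rcases eq_or_lt_of_le hb with hb0 | hb0
        · have ha1 : a = 1 := by linarith
          rw [← hb0, ha1]; left; simpa using hx
        · right
          have hy' : m < f y := hy
          change m < f (a • x + b • y)
          have ha' : a = 1 - b := by linarith
          rw [hlin, hZm x hx, ha']
          nlinarith [mul_pos hb0 (sub_pos.2 hy')]
      · rcases eq_or_lt_of_le ha with ha0 | ha0
        · have hb1 : b = 1 := by linarith
          rw [← ha0, hb1]; left; simpa using hy
        · right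
          have hx' : m < f x := hx
          change m < f (a • x + b • y)
          have hb' : b = 1 - a := by linarith
          rw [hlin, hZm y hy, hb']
          nlinarith [mul_pos ha0 (sub_pos.2 hx')]
      · right
        have hx' : m < f x := hx
        have hy' : m < f y := hy
        change m < f (a • x + b • y)
        rw [hlin]
        rcases eq_or_lt_of_le ha with ha0 | ha0
        · have hb1 : b = 1 := by linarith
          rw [← ha0, hb1]; linarith
        · have hb' : b = 1 - a := by linarith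
          have h5 := mul_pos ha0 (sub_pos.2 hx')
          have h6 := mul_nonneg hb (sub_pos.2 hy').le
          rw [hb'] at h6 ⊢
          nlinarith
    have hsub : convexHull ℝ P0 ⊆ Z ∪ {z | m < f z} := by
      apply convexHull_min _ hconv
      intro z hz
      rcases eq_or_lt_of_le (hP' z (subset_convexHull ℝ P0 hz)) with h | h
      · left
        exact subset_convexHull ℝ _ ⟨hz, h.symm⟩
      · right; exact h
    rintro z ⟨hz, hzm⟩
    rcases hsub hz with h | h
    · exact h
    · exact absurd hzm (ne_of_gt h)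
  · have hconv : Convex ℝ {z | z ∈ convexHull ℝ P0 ∧ f z = m} := by
      intro x hx y hy a b ha hb hab
      refine ⟨convex_convexHull ℝ _ hx.1 hy.1 ha hb hab, ?_⟩
      rw [hlin, hx.2, hy.2, ← add_mul, hab, one_mul]
    apply convexHull_min _ hconv
    intro z hz
    exact ⟨subset_convexHull ℝ _ hz.1, hz.2⟩

lemma vec_inj {n : ℕ} {S T : Finset (Fin n)} (h : indicatorVec S = indicatorVec T) : S = T := by
  ext i
  have := congrFun h i
  unfold indicatorVec at this
  by_cases h1 : i ∈ S <;> by_cases h2 : i ∈ T <;> simp_all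

lemma sum_vec {n : ℕ} (c : Fin n → ℝ) (S : Finset (Fin n)) :
    ∑ i, c i * indicatorVec S i = ∑ i ∈ S, c i := by
  unfold indicatorVec
  simp

/-- **Result.** Let `K` be a field of characteristic two with a valuation `ν : K → ℝ ∪ {∞}` and a
field automorphism `σ` of order two preserving `ν`, and let `ω` satisfy `σ ω = ω + 1` and
`ω^2 + ω + β = 0` with `β` fixed by `σ`. If `B` and `C` are Hermitian and `C` has rank one, then the
valuations of the principal minors of `B + ω C` form a valuated Delta-matroid. -/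
theorem result {K : Type*} [Field K] [CharP K 2] (ν : AddValuation K (WithTop ℝ))
    (σ : K ≃+* K) (hσ : ∀ a, σ (σ a) = a) (_hσ1 : ∃ a, σ a ≠ a) (hν : ∀ a, ν (σ a) = ν a)
    (ω β : K) (hω : σ ω = ω + 1) (_hβ : σ β = β) (_hω2 : ω ^ 2 + ω + β = 0)
    {n : ℕ} (B C : Matrix (Fin n) (Fin n) K) (hB : IsHermitianFor σ B) (hC : IsHermitianFor σ C)
    (hrank : C.rank = 1) :
    IsValuatedDeltaMatroid (fun S : Finset (Fin n) => ν (principalMinor (B + ω • C) S)) := by
  classical
  set A := B + ω • C with hA
  have h2 : (2 : K) = 0 := by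
    have := CharP.cast_eq_zero K 2
    simpa using this
  obtain ⟨u, v, huv⟩ := Q54.ValDelta.rank_one_form C hrank
  have hAC : ∀ i j, A i j + σ (A j i) = u i * v j := by
    intro i j
    rw [← huv, hA]
    simp only [Matrix.add_apply, Matrix.smul_apply, smul_eq_mul, map_add, map_mul, hω]
    rw [← hB j i, ← hC j i]
    linear_combination (B i j + ω * C i j) * h2
  refine ⟨⟨∅, ?_⟩, ?_⟩
  · have : principalMinor A ∅ = 1 := by
      unfold principalMinor
      exact Matrix.det_isEmpty
    simp only [this, ν.map_one]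
    exact WithTop.zero_ne_top
  rintro E ⟨⟨F, ⟨hFne, c, m, hmin, hF⟩, hE⟩, hdim⟩
  set p : Finset (Fin n) → WithTop ℝ := fun S => ν (principalMinor A S) with hp
  rw [face_eq _ c m hmin] at hF
  -- the vertices on the face
  set W : Set (Fin n → ℝ) := {x | ∃ S : Finset (Fin n), x = indicatorVec S ∧
    p S + ((∑ i ∈ S, c i : ℝ) : WithTop ℝ) = (m : WithTop ℝ)} with hW
  have hEW : E = convexHull ℝ W := by
    rw [hE, hF]
    have := (LinearMap.fst ℝ (Fin n → ℝ) ℝ).image_convexHull
      ({z | z ∈ liftedPoints p ∧ (∑ i, c i * z.1 i) + z.2 = m})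
    have h3 : (Prod.fst : (Fin n → ℝ) × ℝ → (Fin n → ℝ)) = ⇑(LinearMap.fst ℝ (Fin n → ℝ) ℝ) := rfl
    refine this.trans ?_
    congr 1
    ext x
    constructor
    · rintro ⟨z, ⟨⟨S, hz1, hz2⟩, hz3⟩, rfl⟩
      refine ⟨S, hz1, ?_⟩
      rw [hz1, sum_vec] at hz3
      rw [hz2, ← WithTop.coe_add, ← hz3, add_comm]
    · rintro ⟨S, hx, hS⟩
      have hne : p S ≠ ⊤ := by
        intro h; rw [h] at hS; simp at hS
      obtain ⟨r, hr⟩ : ∃ r : ℝ, p S = (r : WithTop ℝ) := ⟨_, (WithTop.coe_untop _ hne).symm⟩
      refine ⟨(indicatorVec S, r), ⟨⟨S, rfl, hr⟩, ?_⟩, hx.symm⟩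
      simp only
      rw [sum_vec]
      rw [hr, ← WithTop.coe_add] at hS
      have := WithTop.coe_injective hS
      linarith
  have hspan : vectorSpan ℝ E = vectorSpan ℝ W := by
    rw [hEW, ← direction_affineSpan, affineSpan_convexHull, direction_affineSpan]
  -- two different vertices
  obtain ⟨x, hx, y, hy, hxy⟩ : ∃ x ∈ W, ∃ y ∈ W, x ≠ y := by
    by_contra hcon
    push Not at hcon
    have hsub : W.Subsingleton := fun x hx y hy => hcon x hx y hy
    rw [hspan, vectorSpan_of_subsingleton ℝ hsub] at hdim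
    simp at hdim
  obtain ⟨S, hxS, hS⟩ := hx
  obtain ⟨T, hyT, hT⟩ := hy
  have hTS : T ≠ S := by
    rintro rfl
    exact hxy (hxS.trans hyT.symm)
  set d : Fin n → ℝ := indicatorVec T - indicatorVec S with hd
  have hd0 : d ≠ 0 := by
    intro h
    exact hTS (vec_inj (sub_eq_zero.1 h))
  have hdmem : d ∈ vectorSpan ℝ E := by
    rw [hspan]
    have := vsub_mem_vectorSpan ℝ (s := W) (p₁ := indicatorVec T) (p₂ := indicatorVec S)
      ⟨T, rfl, hT⟩ ⟨S, rfl, hS⟩
    simpa using this
  have hspd : vectorSpan ℝ E = Submodule.span ℝ {d} := by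
    symm
    apply Submodule.eq_of_le_of_finrank_eq
    · rw [Submodule.span_singleton_le_iff_mem]; exact hdmem
    · rw [hdim]; exact finrank_span_singleton hd0
  -- no other vertices
  have honly : ∀ U, U ≠ S → U ≠ T →
      (m : WithTop ℝ) < p U + ((∑ i ∈ U, c i : ℝ) : WithTop ℝ) := by
    intro U hUS hUT
    have hle : (m : WithTop ℝ) ≤ p U + ((∑ i ∈ U, c i : ℝ) : WithTop ℝ) := by
      rcases eq_or_ne (p U) ⊤ with ht | ht
      · rw [ht]; simp
      · obtain ⟨r, hr⟩ : ∃ r : ℝ, p U = (r : WithTop ℝ) := ⟨_, (WithTop.coe_untop _ ht).symm⟩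
        have := hmin (indicatorVec U, r) (subset_convexHull ℝ _ ⟨U, rfl, hr⟩)
        simp only at this
        rw [sum_vec] at this
        rw [hr, ← WithTop.coe_add, WithTop.coe_le_coe]
        linarith
    refine lt_of_le_of_ne hle (fun heq => ?_)
    have hmem : indicatorVec U - indicatorVec S ∈ vectorSpan ℝ E := by
      rw [hspan]
      have := vsub_mem_vectorSpan ℝ (s := W) (p₁ := indicatorVec U) (p₂ := indicatorVec S)
        ⟨U, rfl, heq.symm⟩ ⟨S, rfl, hS⟩
      simpa using this
    rw [hspd, Submodule.mem_span_singleton] at hmem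
    obtain ⟨t, ht⟩ := hmem
    obtain ⟨i, hi⟩ : ∃ i, d i ≠ 0 := by
      by_contra hcon; push Not at hcon; exact hd0 (funext hcon)
    have hti := congrFun ht i
    have ht01 : t = 0 ∨ t = 1 := by
      simp only [hd, indicatorVec, Pi.smul_apply, Pi.sub_apply, smul_eq_mul] at hti hi
      by_cases h1 : i ∈ S <;> by_cases h3 : i ∈ T <;> by_cases h4 : i ∈ U <;>
        simp [h1, h3, h4] at hti hi <;> first
          | (left; linarith)
          | (right; linarith)
    rcases ht01 with h0 | h1
    · rw [h0, zero_smul] at ht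
      exact hUS (vec_inj (sub_eq_zero.1 ht.symm))
    · rw [h1, one_smul, hd] at ht
      exact hUT (vec_inj (sub_left_injective ht).symm)
  have hcard : (symmDiff T S).card ≤ 2 :=
    Q54.ValDelta.main_step (ν := ν) σ hσ hν A u v hAC c m S T hS hT honly
  -- conclude
  have hd_apply : ∀ i, d i = if i ∈ T then (if i ∈ S then 0 else 1) else
      (if i ∈ S then -1 else 0) := by
    intro i
    simp only [hd, indicatorVec, Pi.sub_apply]
    by_cases h1 : i ∈ T <;> by_cases h3 : i ∈ S <;> simp [h1, h3]
  have hpar : ∀ v : Fin n → ℝ, (d = v ∨ d = -v) → IsParallelTo E v := by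
    intro v hv
    unfold IsParallelTo
    rw [hspd]
    rcases hv with h | h
    · rw [h]
    · rw [h, Submodule.span_singleton_eq_span_singleton]
      exact ⟨-1, by simp⟩
  have hcard0 : (symmDiff T S).card ≠ 0 := by
    intro h
    rw [Finset.card_eq_zero] at h
    exact hTS (symmDiff_eq_bot.1 (by rw [h]; rfl))
  have hout : ∀ i, i ∉ symmDiff T S → d i = 0 := by
    intro i hi
    rw [hd_apply]
    rw [Finset.mem_symmDiff] at hi
    by_cases h1 : i ∈ T <;> by_cases h3 : i ∈ S <;> simp_all
  have hin : ∀ i, i ∈ symmDiff T S → d i = 1 ∨ d i = -1 := by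
    intro i hi
    rw [hd_apply]
    rw [Finset.mem_symmDiff] at hi
    by_cases h1 : i ∈ T <;> by_cases h3 : i ∈ S <;> simp_all
  rcases Nat.lt_or_ge (symmDiff T S).card 2 with h | h
  · left
    have h1 : (symmDiff T S).card = 1 := by omega
    obtain ⟨i, hi⟩ := Finset.card_eq_one.1 h1
    refine ⟨i, hpar _ ?_⟩
    have hzero : ∀ k, k ≠ i → d k = 0 := fun k hk => hout k (by rw [hi]; simpa using hk)
    rcases hin i (by rw [hi]; simp) with hdi | hdi
    · left
      funext k
      by_cases hk : k = i
      · subst hk; simp [hdi]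
      · rw [hzero k hk, Pi.single_eq_of_ne hk]
    · right
      funext k
      by_cases hk : k = i
      · subst hk; simp [hdi]
      · rw [hzero k hk, Pi.neg_apply, Pi.single_eq_of_ne hk, neg_zero]
  · right
    have h1 : (symmDiff T S).card = 2 := by omega
    obtain ⟨i, j, hij, hi⟩ := Finset.card_eq_two.1 h1
    refine ⟨i, j, hij, ?_⟩
    have hzero : ∀ k, k ≠ i → k ≠ j → d k = 0 := fun k hk hk' => hout k (by
      rw [hi]; simp [hk, hk'])
    have hji : j ≠ i := hij.symm
    have hcases : ∀ (s t : ℝ), d i = s → d j = t → ∀ k, d k =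
        s * (Pi.single i 1 : Fin n → ℝ) k + t * (Pi.single j 1 : Fin n → ℝ) k := by
      intro s t hs ht k
      by_cases hk : k = i
      · subst hk; rw [Pi.single_eq_same, Pi.single_eq_of_ne hij, hs]; ring
      · by_cases hk' : k = j
        · subst hk'; rw [Pi.single_eq_same, Pi.single_eq_of_ne hji, ht]; ring
        · rw [hzero k hk hk', Pi.single_eq_of_ne hk, Pi.single_eq_of_ne hk']; ring
    rcases hin i (by rw [hi]; simp) with hdi | hdi <;> rcases hin j (by rw [hi]; simp) with hdj | hdj
    · left; apply hpar; left; funext k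
      rw [hcases _ _ hdi hdj k, Pi.add_apply]; ring
    · right; apply hpar; left; funext k
      rw [hcases _ _ hdi hdj k, Pi.sub_apply]; ring
    · right; apply hpar; right; funext k
      rw [hcases _ _ hdi hdj k, Pi.neg_apply, Pi.sub_apply]; ring
    · left; apply hpar; right; funext k
      rw [hcases _ _ hdi hdj k, Pi.neg_apply, Pi.add_apply]; ring

end Pool.Agent.Results.MP_943595_co.HermitianRankOne
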